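import Mathlib
import Pool.Agent.H29.Pon

namespace Pool.Agent.Results.MP_d21a88_gt.Circum
open H29.PonDef

theorem result (E F : Ellipse) : ∃ (P : Plane) (k : ℝ), ∀ A B C, Periodic E F A B C →
    ∀ O r, Through O r A B C → power P O r = k :=
  H29.Pon.q1 E F

end Pool.Agent.Results.MP_d21a88_gt.Circum
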