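import Mathlib
import Pool.Agent.H29.Pon2

namespace Pool.Agent.Results.MP_d21a88_gt.Euler
open H29.PonDef

theorem result : ∃ E F : Ellipse,
    (∀ p, F.form p = 1 → E.form p < 1) ∧ (E.x, E.y) ≠ (F.x, F.y) ∧
      E.b * (F.a - F.c) ≠ F.b * (E.a - E.c) ∧ (∃ A B C, Periodic E F A B C) ∧
      ∀ (P : Plane) (k : ℝ), ∃ A B C, Periodic E F A B C ∧ ∃ N r,
        Through N r (midpoint ℝ A B) (midpoint ℝ B C) (midpoint ℝ C A) ∧ power P N r ≠ k := by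
  refine ⟨H29.Pon2.E, H29.Pon2.F, H29.Pon2.inside, by norm_num [H29.Pon2.E, H29.Pon2.F],
    by norm_num [H29.Pon2.E, H29.Pon2.F], ⟨_, _, _, H29.Pon2.per1⟩, fun P k => ?_⟩
  by_contra hc
  push Not at hc
  have h1 := hc _ _ _ H29.Pon2.per1 !₂[39 / 170, 42 / 25] (Real.sqrt (2077209 / 722500))
    ⟨H29.Pon2.dist_of (by norm_num [H29.Pon2.mid]), H29.Pon2.dist_of (by norm_num [H29.Pon2.mid]),
      H29.Pon2.dist_of (by norm_num [H29.Pon2.mid])⟩
  have h2 := hc _ _ _ H29.Pon2.per2 !₂[39 / 170, 42 / 25] (Real.sqrt (3926809 / 722500))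
    ⟨H29.Pon2.dist_of (by norm_num [H29.Pon2.mid]), H29.Pon2.dist_of (by norm_num [H29.Pon2.mid]),
      H29.Pon2.dist_of (by norm_num [H29.Pon2.mid])⟩
  rw [power, Real.sq_sqrt (by norm_num)] at h1 h2
  linarith

end Pool.Agent.Results.MP_d21a88_gt.Euler
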